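import Pool.Agent.Run7.h152.HL.Core

/-!
# Orthogonal lifts
-/

set_option autoImplicit false

open CategoryTheory AlgebraicGeometry

universe u v w

namespace Run7.h152.HL

open Pool.Agent.H914 Pool.Agent.H914.VarClass Pool.Agent.H914.VarClass.Obj
  Pool.Agent.H914.WeilCohomology Run7.h152.DR

variable {A A' : Arith.{w}} {Y : Fibre.{u, v, w} A} {m n : ℕ}

/-- Orthogonal lifts for strictly semistable schemes. -/
theorem IsSemistable.hasLifts (hY : IsSemistable Y m n) (h : NumBoundary Y.W Y.T m n) :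
    A.HasLifts := by
  intro c hc
  obtain ⟨z, hz⟩ := hY.surj c
  obtain ⟨b, hb, hb'⟩ := exists_correction hY.dim h (hY.res_mem z)
    (hY.boundary z (by rw [hz]; exact hc))
  refine ⟨z + Y.push b, ?_, fun f => ?_⟩
  · rw [map_add, hY.gen_push b hb, add_zero, hz]
  · obtain ⟨t, w, hw, hf⟩ := hY.pair f
    have hd0 : ∀ l, (Y.T.Q 0 l).dim = m + n + 1 := fun l => by
      have := hY.dim 0 l
      omega
    have h1 := trO_clO (W := Y.W) hd0 (show m + 1 + n = m + n + 1 by omega)
      (hY.res_mem (z + Y.push b)) hw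
    rw [hY.res_add, hY.res_push b hb, trO_add, trO_neg, hb' w hw, add_neg_cancel] at h1
    have h2 : degO Y.ops (Y.res (z + Y.push b)) w = 0 := by exact_mod_cast h1.symm
    rw [hf, h2, Rat.cast_zero, mul_zero]

/-- Orthogonal lifts descend along alterations. -/
theorem Alteration.hasLifts (φ : Alteration A' A) (h : A'.HasLifts) : A.HasLifts := by
  intro c hc
  obtain ⟨z, hz, hz'⟩ := h _ (φ.pull_hom _ (A.hom.smul_mem (φ.deg⁻¹) hc))
  refine ⟨φ.push z, ?_, fun f => ?_⟩
  · rw [φ.gen_push, hz, φ.push_pull, smul_smul, mul_inv_cancel₀ φ.deg_ne, one_smul]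
  · rw [φ.proj, hz']

/-- The question is local. -/
theorem Localisation.hasLifts {S : Type w} {L : S → Arith.{w}} (Λ : Localisation A L)
    (h : ∀ v, (L v).IsGood ∨ (L v).HasLifts) : A.HasLifts := by
  classical
  intro c hc
  obtain ⟨z, hz⟩ := Λ.surj c
  have h1 : ∀ v, ∃ y : A.Z, A.gen y = 0 ∧ (∀ v' ≠ v, Λ.loc v' y = 0) ∧
      (¬ (L v).IsGood → ∀ f, (L v).pair (Λ.loc v (z + y)) f = 0) := by
    intro v
    by_cases hv : (L v).IsGood
    · exact ⟨0, map_zero _, fun v' _ => map_zero _, fun h => absurd hv h⟩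
    · obtain ⟨x, hx, hx'⟩ := (h v).resolve_left hv _ (Λ.hom_loc v c hc)
      obtain ⟨y, hy, hy', hy''⟩ := Λ.fibral v (x - Λ.loc v z) (by
        rw [map_sub, hx, Λ.gen_loc, hz, sub_self])
      refine ⟨y, hy, hy'', fun _ f => ?_⟩
      rw [map_add, hy', add_sub_cancel]
      exact hx' f
  choose y hy hy' hy'' using h1
  set B := Λ.finite.toFinset with hB
  have hloc : ∀ v, Λ.loc v (z + ∑ v ∈ B, y v) = Λ.loc v (z + if v ∈ B then y v else 0) := by
    intro v
    rw [map_add, map_add, map_sum]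
    congr 1
    by_cases hv : v ∈ B
    · rw [if_pos hv, Finset.sum_eq_single_of_mem v hv fun v' _ hne => hy' v' v (Ne.symm hne)]
    · rw [if_neg hv, map_zero]
      exact Finset.sum_eq_zero fun v' hv' => hy' v' v fun h => hv (h ▸ hv')
  refine ⟨z + ∑ v ∈ B, y v, ?_, fun f => ?_⟩
  · rw [map_add, map_sum, Finset.sum_eq_zero fun v _ => hy v, add_zero, hz]
  · obtain ⟨s, g, hf⟩ := Λ.pair_loc f
    rw [hf]
    refine Finset.sum_eq_zero fun v _ => ?_
    rw [hloc v]
    by_cases hv : v ∈ B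
    · rw [if_pos hv]
      exact hy'' v (Λ.finite.mem_toFinset.1 hv) _
    · rw [if_neg hv, add_zero]
      have hg : (L v).IsGood := by
        by_contra hg
        exact hv (Λ.finite.mem_toFinset.2 hg)
      exact hg _ (by rw [Λ.gen_loc, hz]; exact Λ.hom_loc v c hc) _

end Run7.h152.HL
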