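import Pool.Agent.Run7.h152.HL.Four

/-!
# Divisors whose restrictions to the double intersections are isotropic: the theorem
-/

set_option autoImplicit false

open CategoryTheory AlgebraicGeometry

universe u v w

namespace Run7.h152.HL

open Pool.Agent.H914 Pool.Agent.H914.VarClass Pool.Agent.H914.VarClass.Obj
  Pool.Agent.H914.WeilCohomology Run7.h152.DR

variable {k : Type u} [Field k] {𝒱 : VarClass k} {ops : CycleOps 𝒱}
  {W : WeilCohomology.{u, v} ops}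

section Lin

variable {a b : ℕ} {Q : Fin a → 𝒱.Obj} {R : Fin b → 𝒱.Obj} (F : FacesO R Q)

lemma oneO_add (q q' : Fin a → ℚ) : oneO W Q (q + q') = oneO W Q q + oneO W Q q' := by
  funext l
  rw [Pi.add_apply, oneO, oneO, oneO, Pi.add_apply, Rat.cast_add, add_smul]

lemma oneO_smul (t : ℚ) (q : Fin a → ℚ) : oneO W Q (t • q) = (t : W.K) • oneO W Q q := by
  funext l
  rw [Pi.smul_apply, oneO, oneO, Pi.smul_apply, smul_eq_mul, Rat.cast_mul, mul_smul]

lemma res_sub (x y : CohO W Q) : F.res W (x - y) = F.res W x - F.res W y := by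
  have := res_add F (x - y) y
  rw [sub_add_cancel] at this
  rw [this, add_sub_cancel_right]

lemma gys_sub (x y : CohO W R) : F.gys W (x - y) = F.gys W x - F.gys W y := by
  have := gys_add F (x - y) y
  rw [sub_add_cancel] at this
  rw [this, add_sub_cancel_right]

lemma gys_neg (y : CohO W R) : F.gys W (-y) = -F.gys W y := by
  have := gys_smul F (-1 : W.K) y
  rwa [neg_one_smul, neg_one_smul] at this

end Lin

section Main

variable {a₀ a₁ a₂ a₃ : ℕ} {Q₀ : Fin a₀ → 𝒱.Obj} {Q₁ : Fin a₁ → 𝒱.Obj} {Q₂ : Fin a₂ → 𝒱.Obj}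
  {Q₃ : Fin a₃ → 𝒱.Obj} {F₀ : FacesO Q₁ Q₀} {F₁ : FacesO Q₂ Q₁} {F₂ : FacesO Q₃ Q₂} {h₀ : CycO Q₀}
  {h₁ : CycO Q₁} {h₂ : CycO Q₂} {h₃ : CycO Q₃} {e : ℕ}

theorem Four.main (D : Four W F₀ F₁ F₂ h₀ h₁ h₂ h₃ e) {x : CohO W Q₀} (hx : AlgO W Q₀ 1 x)
    (hnum : ∀ y, AlgO W Q₀ (e + 1) y → trO (F₀.gys W (F₀.res W x)) y = 0) :
    ∃ v : Fin a₂ → ℚ, F₁.gys W (oneO W Q₂ v) = F₀.res W x ∧ F₂.res W (oneO W Q₂ v) = 0 := by
  classical
  set H₀ := clO W h₀ with hH₀
  set H₁ := clO W h₁ with hH₁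
  set H₂ := clO W h₂ with hH₂
  set H₃ := clO W h₃ with hH₃
  have hHa₀ : AlgO W Q₀ 1 H₀ := algO_clh D.i0
  have hHa₁ : AlgO W Q₁ 1 H₁ := algO_clh D.i1
  have hHa₃ : AlgO W Q₃ 1 H₃ := algO_clh D.i3
  set R := F₀.res W x with hR
  have hRa : AlgO W Q₁ 1 R := hx.res
  -- the coboundaries
  set δ₁ : (Fin a₂ → ℚ) → CohO W Q₁ := fun v => F₁.gys W (oneO W Q₂ v) with hδ₁
  set δ₃ : (Fin a₂ → ℚ) → CohO W Q₃ := fun v => F₂.res W (oneO W Q₂ v) with hδ₃
  have δ₁a : ∀ v, AlgO W Q₁ 1 (δ₁ v) := fun v =>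
    AlgO.gys (fun j l => by rw [D.d2, D.d1]) (algO_oneO v)
  have δ₃a : ∀ v, AlgO W Q₃ 0 (δ₃ v) := fun v => (algO_oneO v).res
  have δ₁add : ∀ v v', δ₁ (v + v') = δ₁ v + δ₁ v' := fun v v' => by
    simp only [hδ₁]; rw [oneO_add, gys_add]
  have δ₃add : ∀ v v', δ₃ (v + v') = δ₃ v + δ₃ v' := fun v v' => by
    simp only [hδ₃]; rw [oneO_add, res_add]
  have δ₁smul : ∀ (t : ℚ) v, δ₁ (t • v) = (t : W.K) • δ₁ v := fun t v => by
    simp only [hδ₁]; rw [oneO_smul, gys_smul]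
  have δ₃smul : ∀ (t : ℚ) v, δ₃ (t • v) = (t : W.K) • δ₃ v := fun t v => by
    simp only [hδ₃]; rw [oneO_smul, res_smul]
  -- the forms
  let Φ : (Fin a₂ → ℚ) →ₗ[ℚ] (Fin a₂ → ℚ) →ₗ[ℚ] W.K := LinearMap.mk₂ ℚ
    (fun v v' => trO (H₁ ^ e * starO H₁ e (δ₁ v)) (δ₁ v') + trO (H₃ ^ e * δ₃ v) (δ₃ v'))
    (fun v w v' => by
      rw [δ₁add, δ₃add, starO_add, mul_add, mul_add, trO_add, trO_add]; ring)
    (fun t v v' => by
      rw [δ₁smul, δ₃smul, starO_smul, mul_smul_comm, mul_smul_comm, trO_smul, trO_smul,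
        Rat.smul_def]; ring)
    (fun v w w' => by
      rw [δ₁add, δ₃add, trO_add_right, trO_add_right]; ring)
    (fun t v w => by
      rw [δ₁smul, δ₃smul, trO_smul_right, trO_smul_right, Rat.smul_def]; ring)
  have Φa : ∀ v v', Φ v v' =
      trO (H₁ ^ e * starO H₁ e (δ₁ v)) (δ₁ v') + trO (H₃ ^ e * δ₃ v) (δ₃ v') := fun _ _ => rfl
  let φ : (Fin a₂ → ℚ) →ₗ[ℚ] W.K :=
    { toFun := fun v' => trO (H₁ ^ e * starO H₁ e R) (δ₁ v')
      map_add' := fun v v' => by rw [δ₁add, trO_add_right]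
      map_smul' := fun t v => by
        rw [δ₁smul, trO_smul_right, RingHom.id_apply, Rat.smul_def] }
  have φa : ∀ v', φ v' = trO (H₁ ^ e * starO H₁ e R) (δ₁ v') := fun _ => rfl
  have stara : ∀ {u}, AlgO W Q₁ 1 u → AlgO W Q₁ 1 (starO H₁ e u) := by
    intro u hu
    obtain ⟨q, hq⟩ := coefO_rat D.i1 D.d1 hu
    have h1 : AlgO W Q₁ 1 (H₁ * oneO W Q₁ q) := by simpa using hHa₁.mul (algO_oneO q)
    rw [starO, hq]
    have h2 := h1.smul 2
    rw [Rat.cast_ofNat] at h2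
    exact h2.sub hu
  have hsum : ∀ v v', Φ v v' = ∑ i, v i • Φ (fun j => if i = j then 1 else 0) v' := by
    intro v v'
    conv_lhs => rw [LinearMap.pi_apply_eq_sum_univ Φ v]
    rw [LinearMap.sum_apply]
    rfl
  obtain ⟨q, hq⟩ := exists_rational_solution (K := W.K)
    (fun i : Fin a₂ => Φ (fun j => if i = j then 1 else 0)) φ
    (fun i v' => by
      rw [Φa]
      obtain ⟨r, hr⟩ := trO_rational D.d1 (show e + 1 + 1 = e + 2 by omega)
        ((hHa₁.pow (p := e)).mul (stara (δ₁a (fun j => if i = j then 1 else 0)))) (δ₁a v')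
      obtain ⟨s, hs⟩ := trO_rational D.d3 (show e + 0 + 0 = e by omega)
        ((hHa₃.pow (p := e)).mul (δ₃a (fun j => if i = j then 1 else 0))) (δ₃a v')
      exact ⟨r + s, by rw [hr, hs]; push_cast; rfl⟩)
    (fun v' => trO_rational D.d1 (show e + 1 + 1 = e + 2 by omega)
      ((hHa₁.pow (p := e)).mul (stara hRa)) (δ₁a v'))
    (fun v' hv' => by
      have h1 : Φ v' v' = 0 := by
        rw [hsum]
        exact Finset.sum_eq_zero fun i _ => by rw [hv' i, smul_zero]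
      rw [Φa] at h1
      have p1 := star_pos D.i1 D.d1 (δ₁a v')
      have p3 := pos_family D.i3 D.d3 (resQ F₂ v')
      have e3 : δ₃ v' = oneO W Q₃ (resQ F₂ v') := res_oneO F₂ v'
      rw [← e3] at p3
      obtain ⟨h2, h3⟩ := NN.eq_zero p1.1 p3.1 h1
      rw [φa, p1.2 h2, trO_zero_right])
  have hq' : ∀ v', φ v' = Φ q v' := by
    intro v'
    rw [hq v', hsum]
    refine Finset.sum_congr rfl fun i _ => ?_
    rw [Rat.smul_def]
  -- the harmonic representative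
  set u := R - δ₁ q with hu
  have hua : AlgO W Q₁ 1 u := hRa.sub (δ₁a q)
  set q' : Fin a₃ → ℚ := resQ F₂ (-q) with hq'def
  have ea : oneO W Q₃ q' = -δ₃ q := by
    rw [hq'def, ← res_oneO]
    change δ₃ (-q) = -δ₃ q
    have := δ₃smul (-1) q
    rwa [neg_one_smul, Rat.cast_neg, Rat.cast_one, neg_one_smul] at this
  have hrel : F₁.res W u + F₂.gys W (oneO W Q₃ q') = 0 := by
    rw [hu, ea, res_sub, gys_neg, hR, D.rr0, zero_sub, ← neg_add]
    change -(F₁.res W (F₁.gys W (oneO W Q₂ q)) + F₂.gys W (F₂.res W (oneO W Q₂ q))) = 0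
    rw [D.rg1, neg_zero]
  have hnum' : ∀ y, AlgO W Q₀ (e + 1) y → trO (F₀.gys W u) y = 0 := by
    intro y hy
    rw [hu, gys_sub, trO_sub, hnum y hy]
    change 0 - trO (F₀.gys W (F₁.gys W (oneO W Q₂ q))) y = 0
    rw [D.gg0, trO_zero, sub_zero]
  have hstar : starO H₁ e u = starO H₁ e R - starO H₁ e (δ₁ q) := by
    have := starO_add H₁ e u (δ₁ q)
    rw [hu, sub_add_cancel] at this
    rw [hu, this, add_sub_cancel_right]
  have horth0 : ∀ v', trO (H₁ ^ e * starO H₁ e u) (δ₁ v') +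
      trO (H₃ ^ e * oneO W Q₃ q') (δ₃ v') = 0 := by
    intro v'
    have h1 := hq' v'
    rw [φa, Φa] at h1
    rw [hstar, ea, mul_sub, trO_sub, mul_neg, trO_neg, h1]
    ring
  have horth : ∀ l, W.tr _ ((H₂ ^ e * (F₁.res W (starO H₁ e u) +
      F₂.gys W (oneO W Q₃ q'))) l) = 0 := by
    intro l
    have h1 := horth0 (Pi.single l 1)
    change trO (H₁ ^ e * starO H₁ e u) (F₁.gys W (oneO W Q₂ (Pi.single l 1))) +
      trO (H₃ ^ e * oneO W Q₃ q') (F₂.res W (oneO W Q₂ (Pi.single l 1))) = 0 at h1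
    rw [trO_gys', res_pow_mul D.r1, ← trO_gys, gys_pow_mul D.r2, ← trO_add, ← mul_add,
      trO_oneO, Finset.sum_eq_single l] at h1
    · rw [Pi.single_eq_same, Rat.cast_one, one_mul] at h1
      exact h1
    · intro j _ hj
      rw [Pi.single_eq_of_ne hj, Rat.cast_zero, zero_mul]
    · intro hl; exact absurd (Finset.mem_univ _) hl
  have hprim := D.primitive hua hrel hnum' horth
  have hzero : trO (H₁ ^ e * starO H₁ e u) u + trO (H₃ ^ e * oneO W Q₃ q') (oneO W Q₃ q') = 0 := by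
    have h1 := horth0 q
    have h2 : trO (H₁ ^ e * starO H₁ e u) R = 0 := by
      rw [hR, ← trO_gys, gys_pow_mul D.r0, hprim, mul_neg, trO_neg,
        (hHa₀.pow (p := e)).mul_comm, trO_mul_left, hnum' _ ((hHa₀.pow).mul hx), neg_zero]
    have h3 : trO (H₁ ^ e * starO H₁ e u) u =
        trO (H₁ ^ e * starO H₁ e u) R - trO (H₁ ^ e * starO H₁ e u) (δ₁ q) := by
      conv_lhs => rw [hu]
      rw [trO_sub_right]
    have h4 : trO (H₃ ^ e * oneO W Q₃ q') (oneO W Q₃ q') =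
        -trO (H₃ ^ e * oneO W Q₃ q') (δ₃ q) := by
      conv_lhs => rw [ea]
      rw [trO_neg_right, ← ea]
    rw [h3, h4, h2]
    linear_combination -h1
  have p1 := star_pos D.i1 D.d1 hua
  have p3 := pos_family D.i3 D.d3 q'
  obtain ⟨h2, h3⟩ := NN.eq_zero p1.1 p3.1 hzero
  refine ⟨q, ?_, ?_⟩
  · exact (sub_eq_zero.1 (p1.2 h2)).symm
  · have := p3.2 h3
    rw [ea] at this
    exact neg_eq_zero.1 this

end Main

section Tower

variable {T : Tower 𝒱} {h : ∀ p, CycO (T.Q p)}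

/-- **The case of divisors.** -/
theorem IsPolarised.numBoundary (hT : IsPolarised W T h) {e : ℕ}
    (hdim : ∀ p l, (T.Q p l).dim + p = e + 3) : NumBoundary W T (e + 1) 1 := by
  intro w hw h0
  have D : Four W (T.F 0) (T.F 1) (T.F 2) (h 0) (h 1) (h 2) (h 3) e :=
    { rr0 := hT.res_res 0
      rr1 := hT.res_res 1
      gg0 := hT.gys_gys 0
      rg0 := hT.res_gys 0
      rg1 := hT.res_gys 1
      r0 := hT.restr 0
      r1 := hT.restr 1
      r2 := hT.restr 2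
      i0 := hT.index 0
      i1 := hT.index 1
      i2 := hT.index 2
      i3 := hT.index 3
      d0 := fun l => by have := hdim 0 l; omega
      d1 := fun l => by have : (T.Q (0 + 1) l).dim + (0 + 1) = e + 3 := hdim _ l; omega
      d2 := fun l => by have : (T.Q (1 + 1) l).dim + (1 + 1) = e + 3 := hdim _ l; omega
      d3 := fun l => by have : (T.Q (2 + 1) l).dim + (2 + 1) = e + 3 := hdim _ l; omega }
  obtain ⟨v, hv, hv'⟩ := D.main (algO_clO hw) fun y hy => trO_num hdim hw h0 hy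
  have r0 : ∀ p, (T.F p).res W (0 : CohO W (T.Q p)) = 0 := fun p => by
    have := res_smul (T.F p) (0 : W.K) (0 : CohO W (T.Q p))
    rwa [zero_smul, zero_smul] at this
  have g0 : ∀ p, (T.F p).gys W (0 : CohO W (T.Q (p + 1))) = 0 := fun p => by
    have := gys_smul (T.F p) (0 : W.K) (0 : CohO W (T.Q (p + 1)))
    rwa [zero_smul, zero_smul] at this
  let a : ∀ p, CohO W (T.Q (p + 1)) := fun p => match p with
    | 0 => 0
    | 1 => oneO W (T.Q 2) v
    | _ + 2 => 0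
  refine ⟨a, hv, fun p => ?_⟩
  match p with
  | 0 =>
    change (T.F 2).res W (oneO W (T.Q 2) v) + (T.F 3).gys W (0 : CohO W (T.Q 4)) = 0
    rw [hv', zero_add]
    exact g0 3
  | p + 1 =>
    change (T.F (p + 3)).res W (0 : CohO W (T.Q (p + 3))) +
      (T.F (p + 4)).gys W (0 : CohO W (T.Q (p + 5))) = 0
    rw [r0, zero_add]
    exact g0 (p + 4)

end Tower

end Run7.h152.HL
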