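import Pool.Agent.Run7.h152.HL.Defs
import Pool.Agent.Run7.h152.DR.Fam
import Pool.Agent.W536.RBase
import Mathlib.LinearAlgebra.Dual.Lemmas

/-!
# Corrections by cycles on the components
-/

set_option autoImplicit false

open CategoryTheory AlgebraicGeometry

universe u v w

namespace Run7.h152.HL

open Pool.Agent.H914 Pool.Agent.H914.VarClass Pool.Agent.H914.VarClass.Obj
  Pool.Agent.H914.WeilCohomology Run7.h152.DR

/-- Linear systems with rational coefficients. -/
lemma exists_rational_solution {K C ι : Type*} [Field K] [CharZero K] [AddCommGroup C]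
    [Module ℚ C] [Fintype ι] (L : ι → C →ₗ[ℚ] K) (φ : C →ₗ[ℚ] K)
    (hL : ∀ i c, ∃ q : ℚ, L i c = q) (hφ : ∀ c, ∃ q : ℚ, φ c = q)
    (hker : ∀ c, (∀ i, L i c = 0) → φ c = 0) :
    ∃ q : ι → ℚ, ∀ c, φ c = ∑ i, (q i : K) * L i c := by
  obtain ⟨ψ, hψ⟩ := Module.Projective.exists_dual_eq_one ℚ (one_ne_zero : (1 : K) ≠ 0)
  have hψq : ∀ q : ℚ, ψ (q : K) = q := by
    intro q
    have h1 : (q : K) = q • (1 : K) := by rw [Rat.smul_def, mul_one]
    rw [h1, map_smul, hψ, smul_eq_mul, mul_one]
  have hL' : ∀ i c, L i c = ((ψ (L i c) : ℚ) : K) := fun i c => by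
    obtain ⟨q, hq⟩ := hL i c
    rw [hq, hψq]
  have hφ' : ∀ c, φ c = ((ψ (φ c) : ℚ) : K) := fun c => by
    obtain ⟨q, hq⟩ := hφ c
    rw [hq, hψq]
  have h1 : (ψ ∘ₗ φ) ∈ Submodule.span ℚ (Set.range fun i => ψ ∘ₗ L i) := by
    apply mem_span_of_iInf_ker_le_ker
    intro c hc
    rw [Submodule.mem_iInf] at hc
    rw [LinearMap.mem_ker, LinearMap.comp_apply, hker c, map_zero]
    intro i
    have h2 := hc i
    rw [LinearMap.mem_ker, LinearMap.comp_apply] at h2
    rw [hL' i c, h2, Rat.cast_zero]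
  obtain ⟨q, hq⟩ := (Submodule.mem_span_range_iff_exists_fun ℚ).1 h1
  refine ⟨q, fun c => ?_⟩
  have h2 := congrArg (fun g : C →ₗ[ℚ] ℚ => g c) hq
  simp only [LinearMap.sum_apply, LinearMap.smul_apply, LinearMap.comp_apply, smul_eq_mul] at h2
  rw [hφ' c, ← h2, Rat.cast_sum]
  refine Finset.sum_congr rfl fun i _ => ?_
  rw [Rat.cast_mul, ← hL' i c]

variable {k : Type u} [Field k] {𝒱 : VarClass k} {ops : CycleOps 𝒱}
  {W : WeilCohomology.{u, v} ops}

section Family

variable {a b : ℕ} {Q : Fin a → 𝒱.Obj} {R : Fin b → 𝒱.Obj} (F : FacesO R Q)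

lemma trO_add_right (x y y' : CohO W Q) : trO x (y + y') = trO x y + trO x y' := by
  simp only [trO, Pi.add_apply, mul_add, map_add, Finset.sum_add_distrib]

lemma trO_smul_right (c : W.K) (x y : CohO W Q) : trO x (c • y) = c * trO x y := by
  simp only [trO, Pi.smul_apply, mul_smul_comm, map_smul, smul_eq_mul, Finset.mul_sum]

lemma trO_neg_right (x y : CohO W Q) : trO x (-y) = -trO x y := by
  simp only [trO, Pi.neg_apply, mul_neg, map_neg, Finset.sum_neg_distrib]

lemma trO_neg (x y : CohO W Q) : trO (-x) y = -trO x y := by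
  simp only [trO, Pi.neg_apply, neg_mul, map_neg, Finset.sum_neg_distrib]

lemma trO_zero_right (x : CohO W Q) : trO x 0 = 0 := by
  simp [trO]

/-- The restriction is adjoint to the Gysin map, the other order. -/
lemma trO_gys' (x : CohO W Q) (y : CohO W R) : trO x (F.gys W y) = trO (F.res W x) y := by
  have e1 : trO x (F.gys W y) = ∑ c, (F.sgn c : W.K) *
      W.tr _ (x (F.tgt c) * W.push (F.map c) (y (F.src c))) := by
    rw [gysO_apply, trO]
    simp only [Finset.sum_apply, Finset.mul_sum, map_sum, Pi.smul_apply, mul_smul_comm,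
      map_smul, smul_eq_mul]
    rw [Finset.sum_comm]
    apply Finset.sum_congr rfl
    intro c _
    rw [Finset.sum_eq_single (F.tgt c)]
    · rw [Pi.single_eq_same]
    · intro j _ hj
      rw [Pi.single_eq_of_ne hj, mul_zero, map_zero, mul_zero]
    · intro h; exact absurd (Finset.mem_univ _) h
  have e2 : trO (F.res W x) y = ∑ c, (F.sgn c : W.K) *
      W.tr _ (W.map (F.map c) (x (F.tgt c)) * y (F.src c)) := by
    rw [resO_apply, trO]
    simp only [Finset.sum_apply, Finset.sum_mul, map_sum, Pi.smul_apply, smul_mul_assoc,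
      map_smul, smul_eq_mul]
    rw [Finset.sum_comm]
    apply Finset.sum_congr rfl
    intro c _
    rw [Finset.sum_eq_single (F.src c)]
    · rw [Pi.single_eq_same]
    · intro j _ hj
      rw [Pi.single_eq_of_ne hj, zero_mul, map_zero, mul_zero]
    · intro h; exact absurd (Finset.mem_univ _) h
  rw [e1, e2]
  refine Finset.sum_congr rfl fun c _ => ?_
  rw [Pool.Agent.W536.RR.mul_push']
  have h1 := W.tr_push (F.map c) (W.map (F.map c) (x (F.tgt c)) * y (F.src c)) 1
  rw [map_one, mul_one, mul_one] at h1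
  rw [h1]

lemma res_add (x y : CohO W Q) : F.res W (x + y) = F.res W x + F.res W y := by
  rw [resO_apply, resO_apply, resO_apply, ← Finset.sum_add_distrib]
  refine Finset.sum_congr rfl fun c _ => ?_
  rw [Pi.add_apply, map_add, Pi.single_add, smul_add]

lemma res_smul (t : W.K) (x : CohO W Q) : F.res W (t • x) = t • F.res W x := by
  rw [resO_apply, resO_apply, Finset.smul_sum]
  refine Finset.sum_congr rfl fun c _ => ?_
  rw [Pi.smul_apply, map_smul, Pi.single_smul, smul_comm]

lemma gys_add (x y : CohO W R) : F.gys W (x + y) = F.gys W x + F.gys W y := by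
  rw [gysO_apply, gysO_apply, gysO_apply, ← Finset.sum_add_distrib]
  refine Finset.sum_congr rfl fun c _ => ?_
  rw [Pi.add_apply, map_add, Pi.single_add, smul_add]

lemma gys_smul (t : W.K) (x : CohO W R) : F.gys W (t • x) = t • F.gys W x := by
  rw [gysO_apply, gysO_apply, Finset.smul_sum]
  refine Finset.sum_congr rfl fun c _ => ?_
  rw [Pi.smul_apply, map_smul, Pi.single_smul, smul_comm]

/-- Families of classes of cycles of codimension `p`. -/
def AlgO (W : WeilCohomology.{u, v} ops) (Q : Fin a → 𝒱.Obj) (p : ℕ) (x : CohO W Q) : Prop :=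
  ∀ l, ∃ z, (Q l).IsCyc p z ∧ W.cl (Q l) z = x l

lemma alg_sum_single {ι : Type} (s : Finset ι) (n : ι → ℤ) (t : ι → Fin a)
    (x : ∀ c, W.H (Q (t c))) {p : ℕ} (hx : ∀ c, ∃ z, (Q (t c)).IsCyc p z ∧ W.cl _ z = x c) :
    AlgO W Q p (∑ c ∈ s, (n c : W.K) • (Pi.single (t c) (x c) : CohO W Q)) := by
  classical
  intro l
  induction s using Finset.induction_on with
  | empty => exact ⟨0, SmVar.IsCyc.zero _ _, by rw [map_zero, Finset.sum_empty]; rfl⟩
  | insert c s hc ih =>
    obtain ⟨z, hz, hz'⟩ := ih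
    have h1 : ∃ z, (Q l).IsCyc p z ∧
        W.cl (Q l) z = ((n c : W.K) • (Pi.single (t c) (x c) : CohO W Q)) l := by
      by_cases hl : l = t c
      · subst hl
        obtain ⟨y, hy, hy'⟩ := hx c
        refine ⟨(n c : ℚ) • y, SmVar.IsCyc.smul _ hy, ?_⟩
        rw [W.cl_smul, hy', Pi.smul_apply, Pi.single_eq_same]
        push_cast
        rfl
      · refine ⟨0, SmVar.IsCyc.zero _ _, ?_⟩
        rw [map_zero, Pi.smul_apply, Pi.single_eq_of_ne hl, smul_zero]
    obtain ⟨y, hy, hy'⟩ := h1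
    refine ⟨y + z, SmVar.IsCyc.add hy hz, ?_⟩
    rw [Finset.sum_insert hc, map_add, hy', hz']
    rfl

variable {F} in
lemma AlgO.res {x : CohO W Q} {p : ℕ} (hx : AlgO W Q p x) : AlgO W R p (F.res W x) := by
  rw [resO_apply]
  refine alg_sum_single _ _ _ _ fun c => ?_
  obtain ⟨z, hz, hz'⟩ := hx (F.tgt c)
  exact ⟨ops.pull (F.map c) z, ops.pull_mem _ hz, by rw [W.cl_pull, hz']⟩

variable {F} in
lemma AlgO.gys {y : CohO W R} {p : ℕ} (hdim : ∀ j l, (R j).dim + 1 = (Q l).dim)
    (hy : AlgO W R p y) : AlgO W Q (p + 1) (F.gys W y) := by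
  rw [gysO_apply]
  refine alg_sum_single _ _ _ _ fun c => ?_
  obtain ⟨z, hz, hz'⟩ := hy (F.src c)
  refine ⟨ops.push (F.map c) z, ops.push_mem _ hz ?_, by rw [W.cl_push, hz']⟩
  have := hdim (F.src c) (F.tgt c)
  omega

/-- The cycles of codimension `p`. -/
def cycSub (Q : Fin a → 𝒱.Obj) (p : ℕ) : Submodule ℚ (CycO Q) where
  carrier := {z | IsCycO p z}
  zero_mem' := fun _ => SmVar.IsCyc.zero _ _
  add_mem' := fun hx hy l => SmVar.IsCyc.add (hx l) (hy l)
  smul_mem' := fun q _ hx l => SmVar.IsCyc.smul q (hx l)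

lemma clO_add (z z' : CycO Q) : clO W (z + z') = clO W z + clO W z' := by
  funext l
  exact map_add (W.cl (Q l)) _ _

lemma clO_smul (q : ℚ) (z : CycO Q) : clO W (q • z) = (q : W.K) • clO W z := by
  funext l
  exact W.cl_smul q (z l)

lemma clO_sum {ι : Type*} (s : Finset ι) (q : ι → ℚ) (z : ι → CycO Q) :
    clO W (∑ i ∈ s, q i • z i) = ∑ i ∈ s, (q i : W.K) • clO W (z i) := by
  classical
  induction s using Finset.induction_on with
  | empty =>
    rw [Finset.sum_empty, Finset.sum_empty]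
    funext l
    exact map_zero (W.cl (Q l))
  | insert i s hi ih => rw [Finset.sum_insert hi, Finset.sum_insert hi, clO_add, clO_smul, ih]

lemma algO_clO {p : ℕ} {z : CycO Q} (hz : IsCycO p z) : AlgO W Q p (clO W z) :=
  fun l => ⟨z l, hz l, rfl⟩

/-- Intersection numbers are traces. -/
lemma trO_clO {d p q : ℕ} (hQ : ∀ l, (Q l).dim = d) (hpq : p + q = d) {z w : CycO Q}
    (hz : IsCycO p z) (hw : IsCycO q w) : trO (clO W z) (clO W w) = (degO ops z w : W.K) := by
  rw [trO, degO, Rat.cast_sum]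
  refine Finset.sum_congr rfl fun l _ => ?_
  have h1 : (Q l).IsCyc (Q l).dim (ops.mul (z l) (w l)) := by
    rw [hQ l, ← hpq]
    exact ops.mul_mem (hz l) (hw l)
  rw [← W.tr_cl h1, W.cl_mul]
  rfl

lemma trO_rational {d p q : ℕ} (hQ : ∀ l, (Q l).dim = d) (hpq : p + q = d) {x y : CohO W Q}
    (hx : AlgO W Q p x) (hy : AlgO W Q q y) : ∃ r : ℚ, trO x y = r := by
  choose z hz hz' using hx
  choose w hw hw' using hy
  refine ⟨degO ops z w, ?_⟩
  rw [← trO_clO hQ hpq hz hw]
  have e1 : x = clO W z := funext fun l => (hz' l).symm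
  have e2 : y = clO W w := funext fun l => (hw' l).symm
  rw [e1, e2]

end Family

section Tower

variable {T : Tower 𝒱}

/-- The operator `τ ρ` is self-adjoint. -/
lemma gysRes_adj (x y : CohO W (T.Q 0)) : trO (gysRes W T x) y = trO x (gysRes W T y) := by
  rw [gysRes, gysRes, trO_gys, trO_gys']

/-- Boundaries are orthogonal. -/
lemma trO_boundary {d : ℕ} (hdim : ∀ p l, (T.Q p l).dim + p = d) {x y : CohO W (T.Q 0)}
    (hx : T.IsBoundary W x) (hy : (shift T).IsBoundary W ((T.F 0).res W y)) : trO x y = 0 := by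
  obtain ⟨a, ha, ha'⟩ : ∃ a : ∀ p, CohO W (T.Q p), (T.F 0).gys W (a 1) = x ∧
      ∀ p, (T.F (p + 1)).res W (a (p + 1)) + (T.F (p + 2)).gys W (a (p + 3)) = 0 := hx
  obtain ⟨b, hb, hb'⟩ : ∃ b : ∀ p, CohO W (T.Q (p + 1)),
      (T.F 1).gys W (b 1) = (T.F 0).res W y ∧
      ∀ p, (T.F (p + 2)).res W (b (p + 1)) + (T.F (p + 3)).gys W (b (p + 3)) = 0 := hy
  -- the terms
  set t : ℕ → W.K := fun s => trO (a (2 * s + 1)) ((T.F (2 * s + 1)).gys W (b (2 * s + 1)))
    with ht
  have hstep : ∀ s, t s = t (s + 1) := by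
    intro s
    have e1 : (T.F (2 * s + 1)).res W (a (2 * s + 1)) =
        -(T.F (2 * s + 2)).gys W (a (2 * s + 3)) := eq_neg_of_add_eq_zero_left (ha' (2 * s))
    have e2 : (T.F (2 * s + 2)).res W (b (2 * s + 1)) =
        -(T.F (2 * s + 3)).gys W (b (2 * s + 3)) := eq_neg_of_add_eq_zero_left (hb' (2 * s))
    change trO (a (2 * s + 1)) ((T.F (2 * s + 1)).gys W (b (2 * s + 1))) =
      trO (a (2 * s + 3)) ((T.F (2 * s + 3)).gys W (b (2 * s + 3)))
    rw [trO_gys', e1, trO_neg, trO_gys, e2, trO_neg_right, neg_neg]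
  have h0 : trO x y = t 0 := by
    change trO x y = trO (a 1) ((T.F 1).gys W (b 1))
    have hb1 : (T.F 1).gys W (b 1) = (T.F 0).res W y := hb
    rw [hb1, ← trO_gys]
    exact congrArg (fun x => trO x y) ha.symm
  have hall : ∀ s, t 0 = t s := by
    intro s
    induction s with
    | zero => rfl
    | succ s ih => rw [ih, hstep]
  rw [h0, hall (d + 1), ht]
  -- no strata of large codimension
  beta_reduce
  rw [trO]
  refine Finset.sum_eq_zero fun l _ => ?_
  have := hdim (2 * (d + 1) + 1) l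
  omega

/-- All cycles of codimension `n` which are orthogonal to the cycles `τ ρ b` with `b` of codimension `m`
restrict to boundaries on the double intersections. -/
def NumBoundary (W : WeilCohomology.{u, v} ops) (T : Tower 𝒱) (m n : ℕ) : Prop :=
  ∀ w : CycO (T.Q 0), IsCycO n w →
    (∀ b, IsCycO m b → trO (gysRes W T (clO W b)) (clO W w) = 0) →
    (shift T).IsBoundary W ((T.F 0).res W (clO W w))

lemma algO_gysRes {d p : ℕ} (hdim : ∀ p l, (T.Q p l).dim + p = d) {x : CohO W (T.Q 0)}
    (hx : AlgO W _ p x) : AlgO W _ (p + 1) (gysRes W T x) :=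
  AlgO.gys (fun j l => by
    have h1 : (T.Q (0 + 1) j).dim + (0 + 1) = d := hdim _ j
    have h2 := hdim 0 l
    omega) hx.res

lemma AlgO.comm {a : ℕ} {Q : Fin a → 𝒱.Obj} {p : ℕ} {x : CohO W Q} (hx : AlgO W Q p x)
    (y : CohO W Q) : trO x y = trO y x := by
  rw [trO, trO]
  refine Finset.sum_congr rfl fun j _ => ?_
  obtain ⟨y', hy'1, hy'2⟩ := hx j
  rw [← hy'2, W.even_comm (W.cl_mem hy'1)]

lemma trO_num {d m n : ℕ} (hdim : ∀ p l, (T.Q p l).dim + p = d) {w : CycO (T.Q 0)}
    (hw : IsCycO n w) (h0 : ∀ b, IsCycO m b → trO (gysRes W T (clO W b)) (clO W w) = 0)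
    {y : CohO W (T.Q 0)} (hy : AlgO W _ m y) : trO (gysRes W T (clO W w)) y = 0 := by
  choose b hb hb' using hy
  have e1 : y = clO W b := funext fun l => (hb' l).symm
  rw [e1, gysRes_adj, (algO_clO hw).comm, h0 b hb]

lemma NoInvariants.numBoundary {m n : ℕ} (hdim : ∀ p l, (T.Q p l).dim + p = m + n + 1)
    (hD : ∀ l, HomNumAt W (T.Q 0 l) (n + 1)) (hinv : NoInvariants W T n) :
    NumBoundary W T m n := by
  classical
  have hd0 : ∀ l, (T.Q 0 l).dim = m + n + 1 := fun l => by have := hdim 0 l; omega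
  intro w hw h0
  refine hinv w hw ?_
  obtain hA := algO_gysRes hdim (algO_clO (W := W) hw)
  choose y hy hy' using hA
  funext l
  rw [← hy' l]
  refine hD l (by rw [hd0]; omega) (y l) (hy l) fun c hc => ?_
  have hc' : (T.Q 0 l).IsCyc m c := by
    have : (T.Q 0 l).dim - (n + 1) = m := by rw [hd0]; omega
    rwa [this] at hc
  have h2 : W.tr _ (W.cl _ (y l) * W.cl _ c) = 0 := by
    have e1 : trO (gysRes W T (clO W w)) (Pi.single l (W.cl _ c) : CohO W (T.Q 0)) =
        W.tr _ (W.cl _ (y l) * W.cl _ c) := by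
      rw [trO_single, hy' l]
    rw [← e1]
    refine trO_num hdim hw h0 fun j => ?_
    by_cases hj : j = l
    · subst hj; exact ⟨c, hc', by rw [Pi.single_eq_same]⟩
    · exact ⟨0, SmVar.IsCyc.zero _ _, by rw [Pi.single_eq_of_ne hj, map_zero]⟩
  have h3 : (((T.Q 0 l).V.degCycle (ops.mul (y l) c) : ℚ) : W.K) = 0 := by
    have h5 : (T.Q 0 l).IsCyc (T.Q 0 l).dim (ops.mul (y l) c) := by
      have := ops.mul_mem (hy l) hc'
      rwa [show n + 1 + m = (T.Q 0 l).dim by rw [hd0]; omega] at this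
    rw [← W.tr_cl h5, W.cl_mul, h2]
  exact_mod_cast h3

/-- **The correction.** -/
theorem exists_correction {m n : ℕ} (hdim : ∀ p l, (T.Q p l).dim + p = m + n + 1)
    (hN : NumBoundary W T m n) {z : CycO (T.Q 0)}
    (hz : IsCycO (m + 1) z) (hb : T.IsBoundary W (clO W z)) :
    ∃ b : CycO (T.Q 0), IsCycO m b ∧ ∀ w, IsCycO n w →
      trO (clO W z) (clO W w) = trO (gysRes W T (clO W b)) (clO W w) := by
  classical
  have hd0 : ∀ l, (T.Q 0 l).dim = m + n + 1 := fun l => by have := hdim 0 l; omega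
  have hgr : ∀ {p : ℕ} {x : CohO W (T.Q 0)}, AlgO W _ p x → AlgO W _ (p + 1) (gysRes W T x) :=
    fun hx => algO_gysRes hdim hx
  have hker : ∀ w : CycO (T.Q 0), IsCycO n w →
      (∀ b, IsCycO m b → trO (gysRes W T (clO W b)) (clO W w) = 0) →
      trO (clO W z) (clO W w) = 0 :=
    fun w hw h0 => trO_boundary hdim hb (hN w hw h0)
  -- finitely many cycles suffice
  set U : Submodule W.K (CohO W (T.Q 0)) :=
    Submodule.span W.K {x | ∃ b, IsCycO m b ∧ gysRes W T (clO W b) = x} with hU
  obtain ⟨S, hS, hSspan, hSli⟩ := exists_linearIndependent W.K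
    {x | ∃ b, IsCycO m b ∧ gysRes W T (clO W b) = x}
  have hfin : S.Finite := by
    haveI : Module.Finite W.K (CohO W (T.Q 0)) := by
      unfold CohO
      infer_instance
    exact hSli.setFinite
  have := hfin.fintype
  choose β hβ hβ' using fun s : S => hS s.2
  -- the linear forms
  let C := cycSub (T.Q 0) n
  let L : S → C →ₗ[ℚ] W.K := fun s =>
    { toFun := fun w => trO (gysRes W T (clO W (β s))) (clO W w.1)
      map_add' := fun w w' => by
        rw [Submodule.coe_add, clO_add, trO_add_right]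
      map_smul' := fun q w => by
        rw [Submodule.coe_smul, clO_smul, trO_smul_right, RingHom.id_apply, Rat.smul_def] }
  let φ : C →ₗ[ℚ] W.K :=
    { toFun := fun w => trO (clO W z) (clO W w.1)
      map_add' := fun w w' => by
        rw [Submodule.coe_add, clO_add, trO_add_right]
      map_smul' := fun q w => by
        rw [Submodule.coe_smul, clO_smul, trO_smul_right, RingHom.id_apply, Rat.smul_def] }
  obtain ⟨q, hq⟩ := exists_rational_solution (K := W.K) L φ
    (fun s w => trO_rational hd0 (show m + 1 + n = m + n + 1 by omega)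
      (hgr (algO_clO (hβ s))) (algO_clO w.2))
    (fun w => trO_rational hd0 (show m + 1 + n = m + n + 1 by omega) (algO_clO hz)
      (algO_clO w.2))
    (fun w hw => hker w.1 w.2 fun b hb => by
      have h1 : gysRes W T (clO W b) ∈ Submodule.span W.K S := by
        rw [hSspan]; exact Submodule.subset_span ⟨b, hb, rfl⟩
      refine Submodule.span_induction (p := fun x _ => trO x (clO W w.1) = 0) ?_ ?_ ?_ ?_ h1
      · intro x hx
        have h2 := hw ⟨x, hx⟩
        have h3 : trO (gysRes W T (clO W (β ⟨x, hx⟩))) (clO W w.1) = 0 := h2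
        rw [hβ' ⟨x, hx⟩] at h3
        exact h3
      · exact trO_zero _
      · intro x y _ _ hx hy; rw [trO_add, hx, hy, add_zero]
      · intro t x _ hx; rw [trO_smul, hx, mul_zero])
  refine ⟨∑ s, q s • β s, ?_, fun w hw => ?_⟩
  · have : (∑ s, q s • β s) ∈ cycSub (T.Q 0) m :=
      Submodule.sum_mem _ fun s _ => Submodule.smul_mem _ _ (hβ s)
    exact this
  · have h1 := hq ⟨w, hw⟩
    have h2 : gysRes W T (clO W (∑ s, q s • β s)) =
        ∑ s, (q s : W.K) • gysRes W T (clO W (β s)) := by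
      rw [clO_sum]
      have key : ∀ s' : Finset S, gysRes W T (∑ s ∈ s', (q s : W.K) • clO W (β s)) =
          ∑ s ∈ s', (q s : W.K) • gysRes W T (clO W (β s)) := by
        intro s'
        induction s' using Finset.induction_on with
        | empty =>
          rw [Finset.sum_empty, Finset.sum_empty]
          have := gys_smul (T.F 0) (0 : W.K) (0 : CohO W (T.Q 1))
          have h' := res_smul (T.F 0) (0 : W.K) (0 : CohO W (T.Q 0))
          rw [zero_smul, zero_smul] at this h'
          rw [gysRes, h', this]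
        | insert s s' hs ih =>
          rw [Finset.sum_insert hs, Finset.sum_insert hs, gysRes, res_add, gys_add, res_smul,
            gys_smul]
          change _ + gysRes W T _ = _
          rw [ih]
          rfl
      exact key Finset.univ
    rw [h2]
    have h3 : trO (∑ s, (q s : W.K) • gysRes W T (clO W (β s))) (clO W w) =
        ∑ s, (q s : W.K) * trO (gysRes W T (clO W (β s))) (clO W w) := by
      have key : ∀ s' : Finset S, trO (∑ s ∈ s', (q s : W.K) • gysRes W T (clO W (β s)))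
          (clO W w) = ∑ s ∈ s', (q s : W.K) * trO (gysRes W T (clO W (β s))) (clO W w) := by
        intro s'
        induction s' using Finset.induction_on with
        | empty => rw [Finset.sum_empty, Finset.sum_empty, trO_zero]
        | insert s s' hs ih =>
          rw [Finset.sum_insert hs, Finset.sum_insert hs, trO_add, trO_smul, ih]
      exact key Finset.univ
    rw [h3]
    exact h1

end Tower

end Run7.h152.HL
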