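import Pool.Agent.Run7.h152.DR.Defs

/-!
# Cycles on regular models and their intersections with the closed fibres: definitions
-/

set_option autoImplicit false

open CategoryTheory AlgebraicGeometry

universe u v w

namespace Run7.h152.HL

open Pool.Agent.H914 Pool.Agent.H914.VarClass Pool.Agent.H914.VarClass.Obj
  Pool.Agent.H914.WeilCohomology Run7.h152.DR

section Strata

variable {k : Type u} [Field k] {𝒱 : VarClass k} {ops : CycleOps 𝒱}

/-- The families of cycles on the members of the family `Q`. -/
abbrev CycO {a : ℕ} (Q : Fin a → 𝒱.Obj) : Type u := ∀ l, (Q l).Cycles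

/-- The cycles in the family have codimension `p`. -/
def IsCycO {a : ℕ} {Q : Fin a → 𝒱.Obj} (p : ℕ) (z : CycO Q) : Prop := ∀ l, (Q l).IsCyc p (z l)

/-- The classes of the cycles in the family. -/
noncomputable def clO (W : WeilCohomology.{u, v} ops) {a : ℕ} {Q : Fin a → 𝒱.Obj} (z : CycO Q) :
    CohO W Q :=
  fun l => clC W (z l)

/-- The intersection number of two families of cycles: the sum over the members of `Q`. -/
noncomputable def degO (ops : CycleOps 𝒱) {a : ℕ} {Q : Fin a → 𝒱.Obj} (z w : CycO Q) : ℚ :=
  ∑ l, (Q l).V.degCycle (ops.mul (z l) (w l))

/-- The operator `τ ρ` on the cohomology of the components of a special fibre: the restriction to the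
double intersections, followed by the Gysin map. -/
def gysRes (W : WeilCohomology.{u, v} ops) (T : Tower 𝒱) (x : CohO W (T.Q 0)) : CohO W (T.Q 0) :=
  (T.F 0).gys W ((T.F 0).res W x)

/-- The strata of codimension at least one. -/
def shift (T : Tower 𝒱) : Tower 𝒱 where
  a p := T.a (p + 1)
  Q p := T.Q (p + 1)
  F p := T.F (p + 1)

/-- For all cycles `w` of codimension `n` on the components with `τ ρ w = 0` in cohomology the class
`ρ w` on the double intersections is a boundary: there are classes `v 2, v 4, …` on the strata of
codimension `2, 4, …` with `τ (v 2) = ρ w`, `ρ (v 2) + τ (v 4) = 0`, `ρ (v 4) + τ (v 6) = 0`, ….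

In the weight spectral sequence `ρ w` defines a class of weight `2 n + 2` in
`H^(2 n + 1)` of the generic fibre which is killed by the monodromy operator and on which the
Frobenius acts as `q ^ (n + 1)`; the condition says that these classes vanish. It is true if
`H^(2 n + 1)(n + 1)` has no nonzero invariants under the local Galois groups of finite extensions, in
particular if the weight-monodromy conjecture is true for `H^(2 n + 1)`. -/
def NoInvariants (W : WeilCohomology.{u, v} ops) (T : Tower 𝒱) (n : ℕ) : Prop :=
  ∀ z : CycO (T.Q 0), IsCycO n z → gysRes W T (clO W z) = 0 →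
    (shift T).IsBoundary W ((T.F 0).res W (clO W z))

end Strata

/-- The groups in question for cycles of one codimension `i` on a regular scheme `𝒳`, proper and flat
over the ring of integers of a number field or over a complete discrete valuation ring, with generic
fibre `X` of dimension `d`. -/
structure Arith where
  /-- the Chow group `Ch^i(𝒳)` with rational coefficients -/
  Z : Type w
  /-- the Chow group `Ch^i(X)` with rational coefficients -/
  V : Type w
  /-- the group of classes of cycles of codimension `d + 1 - i` on `𝒳` with support in closed
  fibres -/
  F : Type w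
  [addZ : AddCommGroup Z]
  [addV : AddCommGroup V]
  [modV : Module ℚ V]
  /-- the restriction to the generic fibre -/
  gen : Z →+ V
  /-- the homologically trivial classes -/
  hom : Submodule ℚ V
  /-- the intersection number of a class and a fibral class -/
  pair : Z → F → ℝ

attribute [instance] Arith.addZ Arith.addV Arith.modV

/-- Each homologically trivial class on `X` is the restriction of a class on `𝒳` which is orthogonal
to all fibral classes. -/
def Arith.HasLifts (A : Arith.{w}) : Prop :=
  ∀ c ∈ A.hom, ∃ z, A.gen z = c ∧ ∀ f, A.pair z f = 0

/-- All classes on `𝒳` which are homologically trivial on `X` are orthogonal to the fibral classes.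
This is known if `𝒳` is smooth over the base. -/
def Arith.IsGood (A : Arith.{w}) : Prop := ∀ z, A.gen z ∈ A.hom → ∀ f, A.pair z f = 0

/-- The schemes `L v` over the completions of the ring of integers are obtained from `𝒳` by base
change. -/
structure Localisation (A : Arith.{w}) {S : Type w} (L : S → Arith.{w}) where
  /-- the pull-back of classes -/
  loc : ∀ v, A.Z →+ (L v).Z
  /-- the pull-back on the generic fibre -/
  locV : ∀ v, A.V → (L v).V
  /-- classes on the generic fibre extend -/
  surj : ∀ c, ∃ z, A.gen z = c
  gen_loc : ∀ v z, (L v).gen (loc v z) = locV v (A.gen z)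
  hom_loc : ∀ v, ∀ c ∈ A.hom, locV v c ∈ (L v).hom
  /-- the closed fibre over `v` is not changed: a class which is zero on the generic fibre of `L v`
  comes from a cycle on the closed fibre -/
  fibral : ∀ v (x : (L v).Z), (L v).gen x = 0 →
    ∃ y : A.Z, A.gen y = 0 ∧ loc v y = x ∧ ∀ v' ≠ v, loc v' y = 0
  /-- fibral classes are sums of classes with support over the places, and the intersection numbers
  are local -/
  pair_loc : ∀ f, ∃ (s : Finset S) (g : ∀ v, (L v).F),
    ∀ z, A.pair z f = ∑ v ∈ s, (L v).pair (loc v z) (g v)
  /-- almost all fibres are smooth -/
  finite : {v | ¬ (L v).IsGood}.Finite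

/-- The scheme `𝒳'` is an alteration of `𝒳` (both are regular): the push-forward of cycles, the
pull-back of cycles on the generic fibre and the pull-back of fibral classes, with the projection
formula. -/
structure Alteration (A' A : Arith.{w}) where
  /-- push-forward -/
  push : A'.Z → A.Z
  /-- push-forward for the generic fibres -/
  pushV : A'.V →ₗ[ℚ] A.V
  /-- pull-back for the generic fibres -/
  pullV : A.V →ₗ[ℚ] A'.V
  /-- pull-back of fibral classes -/
  pullF : A.F → A'.F
  /-- the degree -/
  deg : ℚ
  deg_ne : deg ≠ 0
  gen_push : ∀ z, A.gen (push z) = pushV (A'.gen z)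
  push_pull : ∀ c, pushV (pullV c) = deg • c
  pull_hom : ∀ c ∈ A.hom, pullV c ∈ A'.hom
  proj : ∀ z f, A.pair (push z) f = A'.pair z (pullF f)

/-- The closed fibre with strictly normal crossings of a scheme over a complete discrete valuation
ring: its strata `T` over the residue field, an `ℓ`-adic cohomology theory `W`, the restriction of
classes on `𝒳` to the components, and the push-forward of cycles from the components to `𝒳`. -/
structure Fibre (A : Arith.{w}) where
  /-- the residue field -/
  k : Type u
  [field : Field k]
  /-- a class of smooth projective varieties -/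
  𝒱 : VarClass k
  /-- operations with cycles -/
  ops : CycleOps 𝒱
  /-- a Weil cohomology -/
  W : WeilCohomology.{u, v} ops
  /-- the strata of the special fibre -/
  T : Tower 𝒱
  /-- the restriction to the components -/
  res : A.Z → CycO (T.Q 0)
  /-- the push-forward from the components -/
  push : CycO (T.Q 0) → A.Z

attribute [instance] Fibre.field

/-- `Y` is the closed fibre of a strictly semistable scheme over a complete discrete valuation ring
with generic fibre of dimension `m + n + 1`, and the classes have codimension `i = m + 1`. -/
structure IsSemistable {A : Arith.{w}} (Y : Fibre.{u, v, w} A) (m n : ℕ) : Prop where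
  /-- classes on the generic fibre extend -/
  surj : ∀ c, ∃ z, A.gen z = c
  /-- fibral classes are zero on the generic fibre -/
  gen_push : ∀ b, IsCycO m b → A.gen (Y.push b) = 0
  /-- the dimension of the strata -/
  dim : ∀ p l, (Y.T.Q p l).dim + p = m + n + 1
  /-- the codimension of the restrictions -/
  res_mem : ∀ z, IsCycO (m + 1) (Y.res z)
  /-- restriction is additive -/
  res_add : ∀ z z', clO Y.W (Y.res (z + z')) = clO Y.W (Y.res z) + clO Y.W (Y.res z')
  /-- the restriction of a fibral class to the components -/
  res_push : ∀ b, IsCycO m b → clO Y.W (Y.res (Y.push b)) = -gysRes Y.W Y.T (clO Y.W b)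
  /-- the intersection numbers with fibral classes are sums of intersection numbers on the components
  (up to the factor `log q`) -/
  pair : ∀ f, ∃ (c : ℝ) (b : CycO (Y.T.Q 0)), IsCycO n b ∧
    ∀ z, A.pair z f = c * degO Y.ops (Y.res z) b
  /-- the restriction to the components of a class which is homologically trivial on the generic fibre
  is a boundary in the weight spectral sequence -/
  boundary : ∀ z, A.gen z ∈ A.hom → Y.T.IsBoundary Y.W (clO Y.W (Y.res z))

end Run7.h152.HL
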