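import Pool.Agent.Run7.h152.HL.Hodge

/-!
# Divisors whose restrictions to the double intersections are isotropic
-/

set_option autoImplicit false

open CategoryTheory AlgebraicGeometry

universe u v w

namespace Run7.h152.HL

open Pool.Agent.H914 Pool.Agent.H914.VarClass Pool.Agent.H914.VarClass.Obj
  Pool.Agent.H914.WeilCohomology Run7.h152.DR

variable {k : Type u} [Field k] {𝒱 : VarClass k} {ops : CycleOps 𝒱}
  {W : WeilCohomology.{u, v} ops}

section Star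

variable {a : ℕ} {Q : Fin a → 𝒱.Obj}

/-- The multiples of `1` with the coefficients `H^(e+1) u / H^(e+2)`. -/
noncomputable def coefO (H : CohO W Q) (e : ℕ) (u : CohO W Q) : CohO W Q :=
  fun l => (W.tr _ ((H ^ (e + 1) * u) l) / W.tr _ ((H ^ (e + 2)) l)) • (1 : W.H (Q l))

/-- The operator which is `-1` on the primitive part and `1` on the multiples of `H`. -/
noncomputable def starO (H : CohO W Q) (e : ℕ) (u : CohO W Q) : CohO W Q :=
  (2 : W.K) • (H * coefO H e u) - u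

lemma coefO_add (H : CohO W Q) (e : ℕ) (u u' : CohO W Q) :
    coefO H e (u + u') = coefO H e u + coefO H e u' := by
  funext l
  rw [Pi.add_apply, coefO, coefO, coefO, mul_add, Pi.add_apply, map_add, add_div, add_smul]

lemma coefO_smul (H : CohO W Q) (e : ℕ) (t : W.K) (u : CohO W Q) :
    coefO H e (t • u) = t • coefO H e u := by
  funext l
  rw [Pi.smul_apply, coefO, coefO, mul_smul_comm, Pi.smul_apply, map_smul, smul_eq_mul,
    mul_div_assoc, mul_smul]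

lemma starO_add (H : CohO W Q) (e : ℕ) (u u' : CohO W Q) :
    starO H e (u + u') = starO H e u + starO H e u' := by
  rw [starO, starO, starO, coefO_add, mul_add, smul_add]
  abel

lemma starO_smul (H : CohO W Q) (e : ℕ) (t : W.K) (u : CohO W Q) :
    starO H e (t • u) = t • starO H e u := by
  rw [starO, starO, coefO_smul, mul_smul_comm, smul_comm (2 : W.K) t, ← smul_sub]

variable {h : CycO Q}

lemma algO_clh (hI : ∀ l, HodgeIndex W (Q l) (h l)) : AlgO W Q 1 (clO W h) :=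
  fun l => ⟨h l, (hI l).isCyc, rfl⟩

lemma coefO_rat (hI : ∀ l, HodgeIndex W (Q l) (h l)) {e : ℕ} (hd : ∀ l, (Q l).dim = e + 2)
    {u : CohO W Q} (hu : AlgO W Q 1 u) : ∃ q : Fin a → ℚ, coefO (clO W h) e u = oneO W Q q := by
  choose r hr hr' using fun l => (hI l).tr_pow (hd l)
  have h1 : AlgO W Q (e + 1 + 1) (clO W h ^ (e + 1) * u) := (algO_clh hI).pow.mul hu
  choose z hz hz' using h1
  refine ⟨fun l => (Q l).V.degCycle (z l) / r l, ?_⟩
  funext l
  have h2 : W.tr _ ((clO W h ^ (e + 2)) l) = (r l : W.K) := hr' l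
  have h3 : (Q l).IsCyc (Q l).dim (z l) := by
    have := hz l
    rwa [show e + 1 + 1 = (Q l).dim by rw [hd l]] at this
  rw [coefO, oneO, h2, ← hz' l, W.tr_cl h3]
  push_cast
  rfl

lemma tr_prim (hI : ∀ l, HodgeIndex W (Q l) (h l)) {e : ℕ} (hd : ∀ l, (Q l).dim = e + 2)
    (u : CohO W Q) (l : Fin a) :
    W.tr _ ((clO W h ^ (e + 1) * (u - clO W h * coefO (clO W h) e u)) l) = 0 := by
  obtain ⟨r, hr, hr'⟩ := (hI l).tr_pow (hd l)
  have h2 : W.tr _ ((clO W h ^ (e + 2)) l) = (r : W.K) := hr'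
  have h3 : (r : W.K) ≠ 0 := by exact_mod_cast hr.ne'
  rw [mul_sub, ← mul_assoc, ← pow_succ, Pi.sub_apply, map_sub, Pi.mul_apply (clO W h ^ (e + 1 + 1)),
    coefO, mul_smul_comm, mul_one, map_smul, smul_eq_mul, h2, div_mul_cancel₀ _ h3, sub_self]

/-- Positivity. -/
lemma star_pos (hI : ∀ l, HodgeIndex W (Q l) (h l)) {e : ℕ} (hd : ∀ l, (Q l).dim = e + 2)
    {u : CohO W Q} (hu : AlgO W Q 1 u) :
    NN (trO (clO W h ^ e * starO (clO W h) e u) u) ∧
      (trO (clO W h ^ e * starO (clO W h) e u) u = 0 → u = 0) := by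
  obtain ⟨q, hq⟩ := coefO_rat hI hd hu
  set H := clO W h with hH
  have hHa : AlgO W Q 1 H := algO_clh hI
  set u₀ := u - H * coefO H e u with hu₀
  have hp : ∀ l, W.tr _ ((H ^ (e + 1) * u₀) l) = 0 := tr_prim hI hd u
  have ha : AlgO W Q 1 u₀ := by
    rw [hu₀, hq]
    exact hu.sub (by simpa using hHa.mul (algO_oneO q))
  have e1 : u = u₀ + H * oneO W Q q := by rw [hu₀, hq, sub_add_cancel]
  have e2 : starO H e u = H * oneO W Q q - u₀ := by
    rw [starO, hu₀, hq, two_smul]; abel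
  have c1 : u₀ * H = H * u₀ := ha.mul_comm H
  have c2 : oneO W Q q * u₀ = u₀ * oneO W Q q := (algO_oneO q).mul_comm _
  have c3 : oneO W Q q * H = H * oneO W Q q := (algO_oneO q).mul_comm _
  have z1 : trO (H ^ (e + 1) * u₀) (oneO W Q q) = 0 := by
    rw [trO_oneO]
    exact Finset.sum_eq_zero fun l _ => by rw [hp l, mul_zero]
  have x1 : trO (H ^ e * u₀) (H * oneO W Q q) = 0 := by
    rw [← z1, trO_mul_left, trO_mul_left, pow_succ]
    rw [trO_mul_left (H ^ e) H, ← mul_assoc u₀, c1, mul_assoc]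
  have x2 : trO (H ^ e * (H * oneO W Q q)) u₀ = 0 := by
    rw [← z1, trO_mul_left, trO_mul_left, pow_succ, trO_mul_left (H ^ e) H, mul_assoc, c2]
  have x3 : trO (H ^ e * (H * oneO W Q q)) (H * oneO W Q q) =
      trO (H ^ (e + 2) * oneO W Q q) (oneO W Q q) := by
    rw [trO_mul_left, trO_mul_left, pow_add, pow_two, trO_mul_left (H ^ e), mul_assoc H,
      mul_assoc H, ← mul_assoc (oneO W Q q) H, c3, mul_assoc H]
  have e3 : trO (H ^ e * starO H e u) u =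
      -trO (H ^ e * u₀) u₀ + trO (H ^ (e + 2) * oneO W Q q) (oneO W Q q) := by
    rw [e2]
    nth_rewrite 1 [e1]
    rw [mul_sub, trO_sub, trO_add_right, trO_add_right, x1, x2, x3]
    ring
  have i1 := index_family hI hd ha hp
  have i2 := pos_family hI hd q
  rw [e3]
  refine ⟨i1.1.add i2.1, fun h0 => ?_⟩
  obtain ⟨h1, h2⟩ := NN.eq_zero i1.1 i2.1 h0
  rw [e1, i1.2 (neg_eq_zero.1 h1), i2.2 h2, mul_zero, add_zero]

end Star

/-- The data on the strata of codimension at most three. -/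
structure Four (W : WeilCohomology.{u, v} ops) {a₀ a₁ a₂ a₃ : ℕ} {Q₀ : Fin a₀ → 𝒱.Obj}
    {Q₁ : Fin a₁ → 𝒱.Obj} {Q₂ : Fin a₂ → 𝒱.Obj} {Q₃ : Fin a₃ → 𝒱.Obj} (F₀ : FacesO Q₁ Q₀)
    (F₁ : FacesO Q₂ Q₁) (F₂ : FacesO Q₃ Q₂) (h₀ : CycO Q₀) (h₁ : CycO Q₁) (h₂ : CycO Q₂)
    (h₃ : CycO Q₃) (e : ℕ) : Prop where
  rr0 : ∀ x, F₁.res W (F₀.res W x) = 0
  rr1 : ∀ x, F₂.res W (F₁.res W x) = 0
  gg0 : ∀ x, F₀.gys W (F₁.gys W x) = 0
  rg0 : ∀ x, F₀.res W (F₀.gys W x) + F₁.gys W (F₁.res W x) = 0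
  rg1 : ∀ x, F₁.res W (F₁.gys W x) + F₂.gys W (F₂.res W x) = 0
  r0 : ∀ c, clO W h₁ (F₀.src c) = W.map (F₀.map c) (clO W h₀ (F₀.tgt c))
  r1 : ∀ c, clO W h₂ (F₁.src c) = W.map (F₁.map c) (clO W h₁ (F₁.tgt c))
  r2 : ∀ c, clO W h₃ (F₂.src c) = W.map (F₂.map c) (clO W h₂ (F₂.tgt c))
  i0 : ∀ l, HodgeIndex W (Q₀ l) (h₀ l)
  i1 : ∀ l, HodgeIndex W (Q₁ l) (h₁ l)
  i2 : ∀ l, HodgeIndex W (Q₂ l) (h₂ l)
  i3 : ∀ l, HodgeIndex W (Q₃ l) (h₃ l)
  d0 : ∀ l, (Q₀ l).dim = e + 3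
  d1 : ∀ l, (Q₁ l).dim = e + 2
  d2 : ∀ l, (Q₂ l).dim = e + 1
  d3 : ∀ l, (Q₃ l).dim = e

section Main

variable {a₀ a₁ a₂ a₃ : ℕ} {Q₀ : Fin a₀ → 𝒱.Obj} {Q₁ : Fin a₁ → 𝒱.Obj} {Q₂ : Fin a₂ → 𝒱.Obj}
  {Q₃ : Fin a₃ → 𝒱.Obj} {F₀ : FacesO Q₁ Q₀} {F₁ : FacesO Q₂ Q₁} {F₂ : FacesO Q₃ Q₂} {h₀ : CycO Q₀}
  {h₁ : CycO Q₁} {h₂ : CycO Q₂} {h₃ : CycO Q₃} {e : ℕ}

/-- The harmonic elements are zero on the support of the radical. -/
lemma Four.primitive (D : Four W F₀ F₁ F₂ h₀ h₁ h₂ h₃ e) {u : CohO W Q₁} (hu : AlgO W Q₁ 1 u)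
    {q : Fin a₃ → ℚ} (hrel : F₁.res W u + F₂.gys W (oneO W Q₃ q) = 0)
    (hnum : ∀ y, AlgO W Q₀ (e + 1) y → trO (F₀.gys W u) y = 0)
    (horth : ∀ l, W.tr _ ((clO W h₂ ^ e * (F₁.res W (starO (clO W h₁) e u) +
      F₂.gys W (oneO W Q₃ q))) l) = 0) :
    F₀.gys W (starO (clO W h₁) e u) = -F₀.gys W u := by
  obtain ⟨b, hb⟩ := coefO_rat D.i1 D.d1 hu
  set H₀ := clO W h₀ with hH₀
  set H₁ := clO W h₁ with hH₁
  set H₂ := clO W h₂ with hH₂
  set H₃ := clO W h₃ with hH₃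
  have hHa₀ : AlgO W Q₀ 1 H₀ := algO_clh D.i0
  have hHa₁ : AlgO W Q₁ 1 H₁ := algO_clh D.i1
  have hHa₂ : AlgO W Q₂ 1 H₂ := algO_clh D.i2
  set u₀ := u - H₁ * coefO H₁ e u with hu₀
  have hp : ∀ l, W.tr _ ((H₁ ^ (e + 1) * u₀) l) = 0 := tr_prim D.i1 D.d1 u
  have ha : AlgO W Q₁ 1 u₀ := by
    rw [hu₀, hb]
    exact hu.sub (by simpa using hHa₁.mul (algO_oneO b))
  have e1 : u = u₀ + H₁ * oneO W Q₁ b := by rw [hu₀, hb, sub_add_cancel]
  have e2 : starO H₁ e u = H₁ * oneO W Q₁ b - u₀ := by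
    rw [starO, hu₀, hb, two_smul]; abel
  have rsub : ∀ x y : CohO W Q₁, F₁.res W (x - y) = F₁.res W x - F₁.res W y := by
    intro x y
    have := res_add F₁ (x - y) y
    rw [sub_add_cancel] at this
    rw [this, add_sub_cancel_right]
  have gsub : ∀ x y : CohO W Q₁, F₀.gys W (x - y) = F₀.gys W x - F₀.gys W y := by
    intro x y
    have := gys_add F₀ (x - y) y
    rw [sub_add_cancel] at this
    rw [this, add_sub_cancel_right]
  have hL : ∀ x, F₁.res W (H₁ * x) = H₂ * F₁.res W x := by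
    intro x
    have := res_pow_mul D.r1 1 x
    rwa [pow_one, pow_one] at this
  have hG : ∀ x, F₀.gys W (H₁ * x) = H₀ * F₀.gys W x := by
    intro x
    have := gys_pow_mul D.r0 1 x
    rwa [pow_one, pow_one] at this
  -- step A
  have A : ∀ l, W.tr _ ((H₂ ^ e * F₁.res W u₀) l) = 0 := by
    intro l
    have h1 := horth l
    have h2 : W.tr _ ((H₂ ^ e * (F₁.res W u + F₂.gys W (oneO W Q₃ q))) l) = 0 := by
      rw [hrel, mul_zero, Pi.zero_apply, map_zero]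
    rw [e2, rsub] at h1
    rw [e1, res_add] at h2
    rw [mul_add, mul_sub, Pi.add_apply, Pi.sub_apply, map_add, map_sub] at h1
    rw [mul_add, mul_add, Pi.add_apply, Pi.add_apply, map_add, map_add] at h2
    have h3 : (2 : W.K) * W.tr _ ((H₂ ^ e * F₁.res W u₀) l) = 0 := by linear_combination h2 - h1
    exact (mul_eq_zero.1 h3).resolve_left two_ne_zero
  have hr1 : AlgO W Q₂ 1 (F₁.res W u₀) := ha.res
  set c := resQ F₁ b with hc
  have hc' : F₁.res W (oneO W Q₁ b) = oneO W Q₂ c := res_oneO F₁ b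
  have hrel' : F₁.res W u₀ = -(H₂ * oneO W Q₂ c + F₂.gys W (oneO W Q₃ q)) := by
    rw [e1, res_add, hL, hc', add_assoc] at hrel
    exact eq_neg_of_add_eq_zero_left hrel
  -- step B
  have B : F₁.res W u₀ = 0 := by
    rcases Nat.eq_zero_or_pos e with he | he
    · funext l
      refine (D.i2 l).tr_curve (by rw [D.d2 l, he]) (hr1 l) ?_
      have := A l
      rwa [he, pow_zero, one_mul] at this
    · obtain ⟨e', rfl⟩ : ∃ e', e = e' + 1 := ⟨e - 1, by omega⟩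
      refine (index_family D.i2 D.d2 hr1 A).2 ?_
      have x1 : trO (H₂ ^ e' * F₁.res W u₀) (H₂ * oneO W Q₂ c) = 0 := by
        have x2 : trO (H₂ ^ (e' + 1) * F₁.res W u₀) (oneO W Q₂ c) = 0 := by
          rw [trO_oneO]
          exact Finset.sum_eq_zero fun l _ => by rw [A l, mul_zero]
        rw [← x2, trO_mul_left, trO_mul_left, pow_succ, trO_mul_left (H₂ ^ e') H₂,
          ← mul_assoc (F₁.res W u₀), hr1.mul_comm H₂, mul_assoc]
      have x3 : trO (H₂ ^ e' * F₁.res W u₀) (F₂.gys W (oneO W Q₃ q)) = 0 := by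
        rw [trO_gys', res_pow_mul D.r2, D.rr1, mul_zero, trO_zero]
      nth_rewrite 2 [hrel']
      rw [trO_neg_right, trO_add_right, x1, x3, add_zero, neg_zero]
  -- step C
  have hrel2 : H₂ * oneO W Q₂ c + F₂.gys W (oneO W Q₃ q) = 0 := by
    rw [B] at hrel'
    exact neg_eq_zero.1 hrel'.symm
  have C : oneO W Q₂ c = 0 := by
    refine (pos_family D.i2 D.d2 c).2 ?_
    have x1 : trO (H₂ ^ e * (H₂ * oneO W Q₂ c + F₂.gys W (oneO W Q₃ q))) (oneO W Q₂ c) = 0 := by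
      rw [hrel2, mul_zero, trO_zero]
    have x2 : trO (H₂ ^ e * F₂.gys W (oneO W Q₃ q)) (oneO W Q₂ c) = 0 := by
      rw [← gys_pow_mul D.r2, trO_gys, ← hc', D.rr1, trO_zero_right]
    rw [mul_add, trO_add, x2, add_zero, ← mul_assoc, ← pow_succ] at x1
    exact x1
  -- step D
  set t := F₀.gys W (oneO W Q₁ b) with ht
  have hta : AlgO W Q₀ 1 t := AlgO.gys (fun j l => by rw [D.d1, D.d0]) (algO_oneO b)
  have hgu : F₀.gys W u = F₀.gys W u₀ + H₀ * t := by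
    conv_lhs => rw [e1]
    rw [gys_add, hG]
  have hu0a : AlgO W Q₀ 2 (F₀.gys W u₀) := AlgO.gys (fun j l => by rw [D.d1, D.d0]) ha
  have D1 : ∀ l, W.tr _ ((H₀ ^ (e + 2) * t) l) = 0 := by
    intro l
    have y1 : AlgO W Q₀ (e + 1) (Pi.single l ((H₀ ^ (e + 1)) l) : CohO W Q₀) := by
      intro j
      by_cases hj : j = l
      · subst hj
        rw [Pi.single_eq_same]
        exact (hHa₀.pow (p := e + 1)) j
      · rw [Pi.single_eq_of_ne hj]
        exact ⟨0, SmVar.IsCyc.zero _ _, map_zero _⟩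
    have y2 := hnum _ y1
    rw [trO_single, hgu, Pi.add_apply, add_mul, map_add] at y2
    have y3 : W.tr _ (F₀.gys W u₀ l * (H₀ ^ (e + 1)) l) = 0 := by
      have z1 : W.tr _ (F₀.gys W u₀ l * (H₀ ^ (e + 1)) l) =
          trO (H₀ ^ (e + 1) * F₀.gys W u₀) (oneO W Q₀ (Pi.single l 1)) := by
        rw [trO_oneO, Finset.sum_eq_single l]
        · rw [Pi.single_eq_same, Rat.cast_one, one_mul, (hHa₀.pow (p := e + 1)).mul_comm]
          rfl
        · intro j _ hj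
          rw [Pi.single_eq_of_ne hj, Rat.cast_zero, zero_mul]
        · intro hl; exact absurd (Finset.mem_univ _) hl
      rw [z1, ← gys_pow_mul D.r0, trO_gys, res_oneO, trO_oneO]
      exact Finset.sum_eq_zero fun j _ => by rw [hp j, mul_zero]
    rw [y3, zero_add] at y2
    rw [← y2]
    congr 1
    rw [Pi.mul_apply, Pi.mul_apply, mul_assoc]
    have z2 : t l * (H₀ ^ (e + 1)) l = (H₀ ^ (e + 1)) l * t l :=
      congrFun (hta.mul_comm (H₀ ^ (e + 1))) l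
    rw [z2, ← mul_assoc]
    congr 1
    rw [Pi.pow_apply, Pi.pow_apply, ← pow_succ']
  -- step E
  have E : t = 0 := by
    refine (index_family D.i0 D.d0 hta D1).2 ?_
    have x1 : trO (H₀ ^ e * F₀.gys W u) t = 0 := by
      have x2 : AlgO W Q₀ (e + 1) (H₀ ^ e * t) := (hHa₀.pow).mul hta
      rw [← hnum _ x2, (hHa₀.pow (p := e)).mul_comm, trO_mul_left]
    have x3 : trO (H₀ ^ e * F₀.gys W u₀) t = 0 := by
      have x4 : F₀.res W (F₀.gys W u₀) = 0 := by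
        have := D.rg0 u₀
        have g0 : F₁.gys W (0 : CohO W Q₂) = 0 := by
          have := gys_smul F₁ (0 : W.K) (0 : CohO W Q₂)
          rwa [zero_smul, zero_smul] at this
        rwa [B, g0, add_zero] at this
      rw [ht, trO_gys', res_pow_mul D.r0, x4, mul_zero, trO_zero]
    rw [hgu, mul_add, trO_add, x3, zero_add, ← mul_assoc, ← pow_succ] at x1
    exact x1
  rw [hgu, e2, gsub, hG, ← ht, E, mul_zero, add_zero, zero_sub]

end Main

end Run7.h152.HL
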