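import Pool.Agent.Run7.h152.HL.Defs

/-!
# Polarised special fibres: definitions
-/

set_option autoImplicit false

open CategoryTheory AlgebraicGeometry

universe u v w

namespace Run7.h152.HL

open Pool.Agent.H914 Pool.Agent.H914.VarClass Pool.Agent.H914.VarClass.Obj
  Pool.Agent.H914.WeilCohomology Run7.h152.DR

variable {k : Type u} [Field k] {𝒱 : VarClass k} {ops : CycleOps 𝒱}

/-- The powers of the cycle `h`. -/
noncomputable def powC (ops : CycleOps 𝒱) {X : 𝒱.Obj} (h : X.Cycles) : ℕ → X.Cycles
  | 0 => X.V.fundCycle
  | e + 1 => ops.mul h (powC ops h e)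

/-- The Hodge index theorem for divisors on `X` and the ample divisor `h`, together with the fact that
numerically trivial divisors are homologically trivial. (Both are known for all smooth projective
varieties over all fields.) -/
structure HodgeIndex (W : WeilCohomology.{u, v} ops) (X : 𝒱.Obj) (h : X.Cycles) : Prop where
  isCyc : X.IsCyc 1 h
  /-- the degree of `X` is positive -/
  pos : 0 < X.V.degCycle (powC ops h X.dim)
  /-- divisors of degree zero on curves -/
  curve : X.dim = 1 → ∀ x, X.IsCyc 1 x → X.V.degCycle x = 0 → clC W x = 0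
  /-- a divisor `x` with `h ^ (dim - 1) x = 0` satisfies `h ^ (dim - 2) x ^ 2 ≤ 0`, and its class is zero
  if this number is zero -/
  index : ∀ e, X.dim = e + 2 → ∀ x, X.IsCyc 1 x →
    X.V.degCycle (ops.mul (powC ops h (e + 1)) x) = 0 →
    X.V.degCycle (ops.mul (ops.mul (powC ops h e) x) x) ≤ 0 ∧
      (X.V.degCycle (ops.mul (ops.mul (powC ops h e) x) x) = 0 → clC W x = 0)

/-- The strata `T` of a special fibre with strictly normal crossings, and the restrictions `h` of an
ample divisor to them: the restrictions `ρ` and the Gysin maps `τ` satisfy `ρ ρ = 0`, `τ τ = 0` and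
`ρ τ + τ ρ = 0`, and the Hodge index theorem holds for the strata. -/
structure IsPolarised (W : WeilCohomology.{u, v} ops) (T : Tower 𝒱) (h : ∀ p, CycO (T.Q p)) :
    Prop where
  res_res : ∀ p (x : CohO W (T.Q p)), (T.F (p + 1)).res W ((T.F p).res W x) = 0
  gys_gys : ∀ p (x : CohO W (T.Q (p + 1 + 1))), (T.F p).gys W ((T.F (p + 1)).gys W x) = 0
  res_gys : ∀ p (x : CohO W (T.Q (p + 1))), (T.F p).res W ((T.F p).gys W x) +
    (T.F (p + 1)).gys W ((T.F (p + 1)).res W x) = 0
  /-- the divisors `h` are compatible with restriction -/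
  restr : ∀ p c, clC W (h (p + 1) ((T.F p).src c)) =
    pullC W ((T.F p).map c) (clC W (h p ((T.F p).tgt c)))
  index : ∀ p l, HodgeIndex W (T.Q p l) (h p l)

/-- The scheme `𝒳` over a complete discrete valuation ring, with generic fibre of dimension `e + 3`,
has a projective strictly semistable alteration. The classes are of codimension `e + 2`, that is, they
are classes of one-dimensional cycles on the generic fibre. -/
def HasSemistableAlteration (A : Arith.{w}) (e : ℕ) : Prop :=
  ∃ (A' : Arith.{w}) (Y : Fibre.{u, v, w} A') (h : ∀ p, CycO (Y.T.Q p)),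
    Nonempty (Alteration A' A) ∧ IsSemistable Y (e + 1) 1 ∧ IsPolarised Y.W Y.T h

end Run7.h152.HL
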