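import Pool.Agent.Run7.h152.HL.Core
import Pool.Agent.Run7.h152.HL.Pol

/-!
# Divisors on the components and the Hodge index theorem
-/

set_option autoImplicit false

open CategoryTheory AlgebraicGeometry

universe u v w

namespace Run7.h152.HL

open Pool.Agent.H914 Pool.Agent.H914.VarClass Pool.Agent.H914.VarClass.Obj
  Pool.Agent.H914.WeilCohomology Run7.h152.DR

section NN

variable {K : Type*} [Field K] [CharZero K]

/-- `t` is a nonnegative rational number. -/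
def NN (t : K) : Prop := ∃ r : ℚ, 0 ≤ r ∧ t = r

lemma NN.zero : NN (0 : K) := ⟨0, le_rfl, by simp⟩

lemma NN.add {s t : K} (hs : NN s) (ht : NN t) : NN (s + t) := by
  obtain ⟨a, ha, rfl⟩ := hs
  obtain ⟨b, hb, rfl⟩ := ht
  exact ⟨a + b, add_nonneg ha hb, by push_cast; rfl⟩

lemma NN.eq_zero {s t : K} (hs : NN s) (ht : NN t) (h : s + t = 0) : s = 0 ∧ t = 0 := by
  obtain ⟨a, ha, rfl⟩ := hs
  obtain ⟨b, hb, rfl⟩ := ht
  have h1 : a + b = 0 := by exact_mod_cast h
  have h2 : a = 0 := by linarith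
  have h3 : b = 0 := by linarith
  rw [h2, h3]
  exact ⟨Rat.cast_zero, Rat.cast_zero⟩

lemma NN.sum {ι : Type*} (s : Finset ι) {f : ι → K} (h : ∀ i ∈ s, NN (f i)) :
    NN (∑ i ∈ s, f i) := by
  classical
  induction s using Finset.induction_on with
  | empty => rw [Finset.sum_empty]; exact NN.zero
  | insert i s hi ih =>
    rw [Finset.sum_insert hi]
    exact (h i (Finset.mem_insert_self _ _)).add
      (ih fun j hj => h j (Finset.mem_insert_of_mem hj))

lemma NN.sum_eq_zero {ι : Type*} (s : Finset ι) {f : ι → K} (h : ∀ i ∈ s, NN (f i))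
    (h0 : ∑ i ∈ s, f i = 0) : ∀ i ∈ s, f i = 0 := by
  classical
  induction s using Finset.induction_on with
  | empty => intro i hi; exact absurd hi (Finset.notMem_empty i)
  | insert i s hi ih =>
    rw [Finset.sum_insert hi] at h0
    have hs : ∀ j ∈ s, NN (f j) := fun j hj => h j (Finset.mem_insert_of_mem hj)
    obtain ⟨h1, h2⟩ := NN.eq_zero (h i (Finset.mem_insert_self _ _)) (NN.sum s hs) h0
    intro j hj
    rcases Finset.mem_insert.1 hj with rfl | hj
    · exact h1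
    · exact ih hs h2 j hj

end NN

variable {k : Type u} [Field k] {𝒱 : VarClass k} {ops : CycleOps 𝒱}
  {W : WeilCohomology.{u, v} ops}

section One

variable {X : 𝒱.Obj} {h : X.Cycles}

lemma cl_powC (e : ℕ) : W.cl X (powC ops h e) = W.cl X h ^ e := by
  induction e with
  | zero => rw [pow_zero]; exact W.cl_fund X
  | succ e ih => rw [pow_succ', ← ih]; exact W.cl_mul _ _

lemma powC_mem (hh : X.IsCyc 1 h) (e : ℕ) : X.IsCyc e (powC ops h e) := by
  induction e with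
  | zero => exact X.V.fundCycle_mem
  | succ e ih =>
    have := ops.mul_mem hh ih
    rwa [add_comm] at this

lemma HodgeIndex.tr_pow (hI : HodgeIndex W X h) {e : ℕ} (hd : X.dim = e) :
    ∃ r : ℚ, 0 < r ∧ W.tr X (W.cl X h ^ e) = r := by
  refine ⟨_, hI.pos, ?_⟩
  rw [← cl_powC]
  have h1 := powC_mem (ops := ops) hI.isCyc X.dim
  rw [← W.tr_cl h1, hd]

lemma HodgeIndex.tr_index (hI : HodgeIndex W X h) {e : ℕ} (hd : X.dim = e + 2) {x : W.H X}
    (hx : ∃ z, X.IsCyc 1 z ∧ W.cl X z = x) (h0 : W.tr X (W.cl X h ^ (e + 1) * x) = 0) :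
    NN (-W.tr X (W.cl X h ^ e * x * x)) ∧ (W.tr X (W.cl X h ^ e * x * x) = 0 → x = 0) := by
  obtain ⟨z, hz, rfl⟩ := hx
  have h1 : X.IsCyc X.dim (ops.mul (powC ops h (e + 1)) z) := by
    have := ops.mul_mem (powC_mem (ops := ops) hI.isCyc (e + 1)) hz
    rwa [show e + 1 + 1 = X.dim by omega] at this
  have h2 : X.IsCyc X.dim (ops.mul (ops.mul (powC ops h e) z) z) := by
    have := ops.mul_mem (ops.mul_mem (powC_mem (ops := ops) hI.isCyc e) hz) hz
    rwa [show e + 1 + 1 = X.dim by omega] at this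
  have e1 : W.cl X h ^ (e + 1) * W.cl X z = W.cl X (ops.mul (powC ops h (e + 1)) z) := by
    rw [W.cl_mul, cl_powC]
  have e2 : W.cl X h ^ e * W.cl X z * W.cl X z =
      W.cl X (ops.mul (ops.mul (powC ops h e) z) z) := by
    rw [W.cl_mul, W.cl_mul, cl_powC]
  rw [e1, W.tr_cl h1] at h0
  rw [e2, W.tr_cl h2]
  obtain ⟨h3, h4⟩ := hI.index e hd z hz (by exact_mod_cast h0)
  exact ⟨⟨_, neg_nonneg.2 h3, by push_cast; rfl⟩, fun h5 => h4 (by exact_mod_cast h5)⟩

lemma HodgeIndex.tr_curve (hI : HodgeIndex W X h) (hd : X.dim = 1) {x : W.H X}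
    (hx : ∃ z, X.IsCyc 1 z ∧ W.cl X z = x) (h0 : W.tr X x = 0) : x = 0 := by
  obtain ⟨z, hz, rfl⟩ := hx
  have h1 : X.IsCyc X.dim z := by rwa [hd]
  rw [W.tr_cl h1] at h0
  exact hI.curve hd z hz (by exact_mod_cast h0)

end One

section Family

variable {a b : ℕ} {Q : Fin a → 𝒱.Obj} {R : Fin b → 𝒱.Obj} (F : FacesO R Q)

/-- Multiples of `1`. -/
def oneO (W : WeilCohomology.{u, v} ops) (Q : Fin a → 𝒱.Obj) (q : Fin a → ℚ) : CohO W Q :=
  fun l => (q l : W.K) • (1 : W.H (Q l))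

lemma algO_oneO (q : Fin a → ℚ) : AlgO W Q 0 (oneO W Q q) := fun l =>
  ⟨q l • (Q l).V.fundCycle, SmVar.IsCyc.smul _ (Q l).V.fundCycle_mem, by
    rw [W.cl_smul, W.cl_fund]; rfl⟩

lemma AlgO.mul {p q : ℕ} {x y : CohO W Q} (hx : AlgO W Q p x) (hy : AlgO W Q q y) :
    AlgO W Q (p + q) (x * y) := fun l => by
  obtain ⟨z, hz, hz'⟩ := hx l
  obtain ⟨w, hw, hw'⟩ := hy l
  exact ⟨ops.mul z w, ops.mul_mem hz hw, by rw [W.cl_mul, hz', hw']; rfl⟩

lemma AlgO.add {p : ℕ} {x y : CohO W Q} (hx : AlgO W Q p x) (hy : AlgO W Q p y) :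
    AlgO W Q p (x + y) := fun l => by
  obtain ⟨z, hz, hz'⟩ := hx l
  obtain ⟨w, hw, hw'⟩ := hy l
  exact ⟨z + w, SmVar.IsCyc.add hz hw, by rw [map_add, hz', hw']; rfl⟩

lemma AlgO.smul {p : ℕ} {x : CohO W Q} (q : ℚ) (hx : AlgO W Q p x) :
    AlgO W Q p ((q : W.K) • x) := fun l => by
  obtain ⟨z, hz, hz'⟩ := hx l
  exact ⟨q • z, SmVar.IsCyc.smul _ hz, by rw [W.cl_smul, hz']; rfl⟩

lemma AlgO.neg {p : ℕ} {x : CohO W Q} (hx : AlgO W Q p x) : AlgO W Q p (-x) := by
  have := hx.smul (-1)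
  rwa [Rat.cast_neg, Rat.cast_one, neg_one_smul] at this

lemma AlgO.sub {p : ℕ} {x y : CohO W Q} (hx : AlgO W Q p x) (hy : AlgO W Q p y) :
    AlgO W Q p (x - y) := by
  rw [sub_eq_add_neg]; exact hx.add hy.neg

lemma AlgO.pow {p : ℕ} {x : CohO W Q} (hx : AlgO W Q 1 x) : AlgO W Q p (x ^ p) := by
  induction p with
  | zero =>
    rw [pow_zero]
    exact fun l => ⟨(Q l).V.fundCycle, (Q l).V.fundCycle_mem, W.cl_fund _⟩
  | succ p ih =>
    rw [pow_succ']
    have := hx.mul ih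
    rwa [add_comm] at this

lemma AlgO.mul_comm {p : ℕ} {x : CohO W Q} (hx : AlgO W Q p x) (y : CohO W Q) :
    x * y = y * x := by
  funext l
  obtain ⟨z, hz, hz'⟩ := hx l
  rw [Pi.mul_apply, Pi.mul_apply, ← hz', W.even_comm (W.cl_mem hz)]

lemma trO_mul_left (x y z : CohO W Q) : trO (x * y) z = trO x (y * z) := by
  simp only [trO, Pi.mul_apply, mul_assoc]

lemma trO_sub (x x' y : CohO W Q) : trO (x - x') y = trO x y - trO x' y := by
  rw [sub_eq_add_neg, trO_add, trO_neg, ← sub_eq_add_neg]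

lemma trO_sub_right (x y y' : CohO W Q) : trO x (y - y') = trO x y - trO x y' := by
  rw [sub_eq_add_neg, trO_add_right, trO_neg_right, ← sub_eq_add_neg]

lemma trO_oneO (x : CohO W Q) (q : Fin a → ℚ) :
    trO x (oneO W Q q) = ∑ l, (q l : W.K) * W.tr _ (x l) := by
  rw [trO]
  refine Finset.sum_congr rfl fun l _ => ?_
  rw [oneO, mul_smul_comm, mul_one, map_smul, smul_eq_mul]

/-- The restriction of multiples of `1`. -/
def resQ (q : Fin a → ℚ) : Fin b → ℚ := ∑ c, Pi.single (F.src c) ((F.sgn c : ℚ) * q (F.tgt c))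

lemma res_oneO (q : Fin a → ℚ) : F.res W (oneO W Q q) = oneO W R (resQ F q) := by
  rw [resO_apply]
  funext j
  rw [Finset.sum_apply, oneO, resQ, Finset.sum_apply, Rat.cast_sum, Finset.sum_smul]
  refine Finset.sum_congr rfl fun c _ => ?_
  by_cases hj : j = F.src c
  · subst hj
    rw [Pi.smul_apply, Pi.single_eq_same, Pi.single_eq_same, oneO, map_smul, map_one, smul_smul]
    push_cast
    rfl
  · rw [Pi.smul_apply, Pi.single_eq_of_ne hj, Pi.single_eq_of_ne hj, smul_zero, Rat.cast_zero,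
      zero_smul]

lemma mul_single (x : CohO W Q) (i : Fin a) (y : W.H (Q i)) :
    x * (Pi.single i y : CohO W Q) = Pi.single i (x i * y) := by
  funext j
  by_cases hj : j = i
  · subst hj; rw [Pi.mul_apply, Pi.single_eq_same, Pi.single_eq_same]
  · rw [Pi.mul_apply, Pi.single_eq_of_ne hj, Pi.single_eq_of_ne hj, mul_zero]

variable {F} in
lemma res_pow_mul {HQ : CohO W Q} {HR : CohO W R}
    (hr : ∀ c, HR (F.src c) = W.map (F.map c) (HQ (F.tgt c))) (e : ℕ) (x : CohO W Q) :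
    F.res W (HQ ^ e * x) = HR ^ e * F.res W x := by
  rw [resO_apply, resO_apply, Finset.mul_sum]
  refine Finset.sum_congr rfl fun c _ => ?_
  rw [mul_smul_comm, mul_single, Pi.mul_apply, Pi.pow_apply, Pi.pow_apply, map_mul, map_pow, hr]

variable {F} in
lemma gys_pow_mul {HQ : CohO W Q} {HR : CohO W R}
    (hr : ∀ c, HR (F.src c) = W.map (F.map c) (HQ (F.tgt c))) (e : ℕ) (y : CohO W R) :
    F.gys W (HR ^ e * y) = HQ ^ e * F.gys W y := by
  rw [gysO_apply, gysO_apply, Finset.mul_sum]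
  refine Finset.sum_congr rfl fun c _ => ?_
  rw [mul_smul_comm, mul_single, Pi.mul_apply, Pi.pow_apply, Pi.pow_apply, hr, ← map_pow,
    Pool.Agent.W536.RR.mul_push']

/-- The Hodge index theorem for families of divisors. -/
lemma index_family {h : CycO Q} (hI : ∀ l, HodgeIndex W (Q l) (h l)) {e : ℕ}
    (hd : ∀ l, (Q l).dim = e + 2) {x : CohO W Q} (hx : AlgO W Q 1 x)
    (h0 : ∀ l, W.tr _ ((clO W h ^ (e + 1) * x) l) = 0) :
    NN (-trO (clO W h ^ e * x) x) ∧ (trO (clO W h ^ e * x) x = 0 → x = 0) := by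
  have h1 := fun l => (hI l).tr_index (hd l) (hx l) (h0 l)
  have e1 : -trO (clO W h ^ e * x) x =
      ∑ l, -W.tr _ (W.cl _ (h l) ^ e * x l * x l) := by
    rw [trO, Finset.sum_neg_distrib]
    rfl
  refine ⟨by rw [e1]; exact NN.sum _ fun l _ => (h1 l).1, fun h2 => ?_⟩
  rw [← neg_eq_zero, e1] at h2
  have h3 := NN.sum_eq_zero _ (fun l _ => (h1 l).1) h2
  funext l
  exact (h1 l).2 (neg_eq_zero.1 (h3 l (Finset.mem_univ l)))

lemma pos_family {h : CycO Q} (hI : ∀ l, HodgeIndex W (Q l) (h l)) {e : ℕ}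
    (hd : ∀ l, (Q l).dim = e) (q : Fin a → ℚ) :
    NN (trO (clO W h ^ e * oneO W Q q) (oneO W Q q)) ∧
      (trO (clO W h ^ e * oneO W Q q) (oneO W Q q) = 0 → oneO W Q q = 0) := by
  choose r hr hr' using fun l => (hI l).tr_pow (hd l)
  have e1 : trO (clO W h ^ e * oneO W Q q) (oneO W Q q) =
      ∑ l, ((q l * q l * r l : ℚ) : W.K) := by
    rw [trO_oneO]
    refine Finset.sum_congr rfl fun l _ => ?_
    rw [Pi.mul_apply, oneO, mul_smul_comm, mul_one, map_smul, smul_eq_mul]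
    have : W.tr _ ((clO W h ^ e) l) = (r l : W.K) := hr' l
    rw [this]
    push_cast
    ring
  have h1 : ∀ l, NN ((q l * q l * r l : ℚ) : W.K) := fun l =>
    ⟨_, mul_nonneg (mul_self_nonneg _) (hr l).le, rfl⟩
  refine ⟨by rw [e1]; exact NN.sum _ fun l _ => h1 l, fun h2 => ?_⟩
  rw [e1] at h2
  have h3 := NN.sum_eq_zero _ (fun l _ => h1 l) h2
  funext l
  have h4 : q l * q l * r l = 0 := by exact_mod_cast h3 l (Finset.mem_univ l)
  have h5 : q l = 0 := by
    rcases mul_eq_zero.1 h4 with h5 | h5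
    · exact mul_self_eq_zero.1 h5
    · exact absurd h5 (hr l).ne'
  rw [oneO, h5, Rat.cast_zero, zero_smul]
  rfl

end Family

end Run7.h152.HL
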